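import Pool.Agent.BTL.Stmts2
import Pool.Agent.BTL.Cq

set_option autoImplicit false

open MeasureTheory Filter Topology

namespace Pool.Agent.BTL.H85

theorem wcoar (hV : S_VV_facts) : W_coarea := by
  intro M hM A hA φ hφ
  have h := Cq.VFof hV hM hA
  have hmd := measurable_deriv (VV A)
  have h1 : ∫ y in {y : ℝ × ℝ | nr y < 1}, φ (qf A y) =
      ∫ s, φ s ∂(Measure.map (qf A) (volume.restrict {y : ℝ × ℝ | nr y < 1})) := by
    rw [integral_map (Cq.cont_qf A).measurable.aemeasurable hφ.aestronglyMeasurable]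
  rw [h1, Cq.map_eq hM h, integral_withDensity_eq_integral_toReal_smul
    hmd.ennreal_ofReal (Filter.Eventually.of_forall fun _ => ENNReal.ofReal_lt_top)]
  refine integral_congr_ae (Filter.Eventually.of_forall fun s => ?_)
  simp only [ENNReal.toReal_ofReal (h.deriv_nonneg s), smul_eq_mul]
  ring

theorem wcube : W_cube := by
  intro n p N P a0 b0 ε hn hnN hni hp hP hpi hs hab hε
  have hN0 : 0 ≤ N := (hn 0).trans (hnN 0)
  have hP0 : 0 ≤ P := (hp 0).trans (hP 0)
  have i1 : Integrable fun s => n s ^ 3 := by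
    have h1 : Integrable fun s => (n s ^ 2) * n s := by
      refine hni.bdd_mul (c := N ^ 2) (hni.aestronglyMeasurable.pow 2) ?_
      refine Filter.Eventually.of_forall fun s => ?_
      rw [Real.norm_eq_abs, abs_of_nonneg (by have := hn s; positivity)]
      exact pow_le_pow_left₀ (hn s) (hnN s) 2
    refine h1.congr (Filter.Eventually.of_forall fun s => ?_)
    simp only; ring
  have i2 : Integrable fun s => p s ^ 2 * n s := by
    refine hni.bdd_mul (c := P ^ 2) (hpi.aestronglyMeasurable.pow 2) ?_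
    refine Filter.Eventually.of_forall fun s => ?_
    rw [Real.norm_eq_abs, abs_of_nonneg (by have := hp s; positivity)]
    exact pow_le_pow_left₀ (hp s) (hP s) 2
  have i3 : Integrable fun s => p s ^ 3 := by
    have h1 : Integrable fun s => (p s ^ 2) * p s := by
      refine hpi.bdd_mul (c := P ^ 2) (hpi.aestronglyMeasurable.pow 2) ?_
      refine Filter.Eventually.of_forall fun s => ?_
      rw [Real.norm_eq_abs, abs_of_nonneg (by have := hp s; positivity)]
      exact pow_le_pow_left₀ (hp s) (hP s) 2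
    refine h1.congr (Filter.Eventually.of_forall fun s => ?_)
    simp only; ring
  have e1 : (∫ s, n s ^ 3) - 3 * (∫ s, p s ^ 2 * n s) + 2 * ∫ s, p s ^ 3 =
      ∫ s, (n s ^ 3 - 3 * (p s ^ 2 * n s) + 2 * p s ^ 3) := by
    have j1 : Integrable fun s => n s ^ 3 - 3 * (p s ^ 2 * n s) := i1.sub (i2.const_mul 3)
    rw [integral_add j1 (i3.const_mul 2), integral_sub i1 (i2.const_mul 3),
      integral_const_mul, integral_const_mul]
  have hnonneg : ∀ s, 0 ≤ n s ^ 3 - 3 * (p s ^ 2 * n s) + 2 * p s ^ 3 := by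
    intro s
    have h1 : n s ^ 3 - 3 * (p s ^ 2 * n s) + 2 * p s ^ 3 = (n s - p s) ^ 2 * (n s + 2 * p s) := by
      ring
    rw [h1]
    have := hn s
    have := hp s
    positivity
  rw [e1]
  refine ⟨integral_nonneg hnonneg, ?_⟩
  have iD : Integrable fun s => n s ^ 3 - 3 * (p s ^ 2 * n s) + 2 * p s ^ 3 :=
    (i1.sub (i2.const_mul 3)).add (i3.const_mul 2)
  have iI : Integrable (Set.indicator (Set.Icc a0 b0) fun _ : ℝ => ε) :=
    (integrable_indicator_iff measurableSet_Icc).mpr (by
      refine integrableOn_const ?_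
      rw [Real.volume_Icc]; exact ENNReal.ofReal_ne_top)
  have e2 : ∫ s, (Set.indicator (Set.Icc a0 b0) (fun _ : ℝ => ε) s +
      (n s ^ 3 - 3 * (p s ^ 2 * n s) + 2 * p s ^ 3) / ε ^ 2) =
      ε * (b0 - a0) + (∫ s, (n s ^ 3 - 3 * (p s ^ 2 * n s) + 2 * p s ^ 3)) / ε ^ 2 := by
    rw [integral_add iI (iD.div_const _), integral_div, integral_indicator measurableSet_Icc]
    congr 1
    simp [Real.volume_real_Icc_of_le hab, mul_comm]
  rw [← e2]
  refine integral_mono_of_nonneg (Filter.Eventually.of_forall fun s => le_max_left _ _)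
    (iI.add (iD.div_const _)) (Filter.Eventually.of_forall fun s => ?_)
  simp only
  have hD := hnonneg s
  by_cases hmem : s ∈ Set.Icc a0 b0
  · rw [Set.indicator_of_mem hmem]
    apply max_le
    · positivity
    · rcases le_or_gt (p s - n s) ε with h1 | h1
      · have : 0 ≤ (n s ^ 3 - 3 * (p s ^ 2 * n s) + 2 * p s ^ 3) / ε ^ 2 := by positivity
        linarith
      · have h2 : p s - n s ≤ (n s ^ 3 - 3 * (p s ^ 2 * n s) + 2 * p s ^ 3) / ε ^ 2 := by
          rw [le_div_iff₀ (by positivity)]
          have h3 : n s ^ 3 - 3 * (p s ^ 2 * n s) + 2 * p s ^ 3 =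
            (p s - n s) ^ 2 * (n s + 2 * p s) := by ring
          rw [h3]
          have h4 : ε ^ 2 ≤ (p s - n s) ^ 2 := pow_le_pow_left₀ hε.le h1.le 2
          have h5 : p s - n s ≤ n s + 2 * p s := by have := hn s; have := hp s; linarith
          have h6 : 0 ≤ p s - n s := by linarith
          calc (p s - n s) * ε ^ 2 ≤ (p s - n s) * (p s - n s) ^ 2 :=
                mul_le_mul_of_nonneg_left h4 h6
            _ = (p s - n s) ^ 2 * (p s - n s) := by ring
            _ ≤ _ := mul_le_mul_of_nonneg_left h5 (by positivity)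
        linarith
  · rw [Set.indicator_of_notMem hmem]
    have h0 : p s = 0 := by
      apply hs
      rw [Set.mem_Icc, not_and_or, not_le, not_le] at hmem
      exact hmem
    apply max_le
    · positivity
    · rw [h0]
      have := hn s
      rw [h0] at hD
      have h2 : 0 ≤ (n s ^ 3 - 3 * ((0 : ℝ) ^ 2 * n s) + 2 * (0 : ℝ) ^ 3) / ε ^ 2 := by positivity
      linarith

end Pool.Agent.BTL.H85
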